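import Pool.Agent.Helper15_SIQ.Stmts
import Pool.Agent.Helper75_SIQ.GSF
import Pool.Agent.Helper79_SIU.KFM

/-!
# MP_021b97_an, Q1, module KPW: powers of the Kähler form
-/

set_option autoImplicit false

open MeasureTheory Filter Topology

namespace Pool.Agent.SIQ.H69

open Pool.Agent.SIU Pool.Agent.SIU.H79

/-- the potential -/
noncomputable def psi (w : E6) : ℝ := ∑ j, Real.log (X1.A j w)

theorem A_eq (j : Fin 3) (w : E6) : X1.A j w = nn w j := by fin_cases j <;> rfl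

theorem psi_eq (w : E6) : psi w = ∑ j, Real.log (nn w j) := by
  unfold psi
  simp only [A_eq]

theorem contDiff_nn (i : Fin 3) : ContDiff ℝ ((⊤ : ℕ∞) : WithTop ℕ∞) (fun z : E6 => nn z i) := by
  unfold nn
  exact ((contDiff_norm_sq ℝ).comp (contDiff_apply ℝ ℂ (lo i))).add
    ((contDiff_norm_sq ℝ).comp (contDiff_apply ℝ ℂ (hi i)))

theorem contDiffOn_psi : ContDiffOn ℝ ((⊤ : ℕ∞) : WithTop ℕ∞) psi X1.U := by
  have h : psi = fun w => ∑ j, Real.log (nn w j) := funext psi_eq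
  rw [h]
  refine ContDiffOn.sum fun j _ => ?_
  exact (contDiff_nn j).contDiffOn.log fun z hz => ((mem_U1' z).mp hz j).ne'

theorem kahler_eq : X1.kahler = ddc (fun w => cst 6 (psi w)) := rfl

theorem psi_act (z : E6) (hz : z ∈ X1.U) (c : C3) (hc : ∀ j, c j ≠ 0) :
    psi (X1.act c z) = psi z + ∑ j, Real.log (‖c j‖ ^ 2) := by
  rw [psi_eq, psi_eq, ← Finset.sum_add_distrib]
  refine Finset.sum_congr rfl fun j _ => ?_
  rw [nn_act, Real.log_mul (pow_ne_zero 2 (norm_ne_zero_iff.mpr (hc j)))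
    ((mem_U1' z).mp hz j).ne', add_comm]

theorem psi_qm (hqua : QuaStmt) (g z : E6) (hg : g ∈ X1.U) (hz : z ∈ X1.U) :
    psi (qm g z) = psi z + psi g := by
  rw [psi_eq, psi_eq, psi_eq, ← Finset.sum_add_distrib]
  refine Finset.sum_congr rfl fun j _ => ?_
  rw [hqua.1, Real.log_mul ((mem_U1' g).mp hg j).ne' ((mem_U1' z).mp hz j).ne', add_comm]

theorem cst_smul (c : ℝ) : cst 6 c = c • cst 6 1 := by
  ext v
  show c = c * 1
  rw [mul_one]

theorem contDiffOn_cst_psi :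
    ContDiffOn ℝ ((⊤ : ℕ∞) : WithTop ℕ∞) (fun w => cst 6 (psi w)) X1.U := by
  have h : (fun w => cst 6 (psi w)) = fun w => psi w • cst 6 1 := funext fun w => cst_smul _
  rw [h]
  exact contDiffOn_psi.smul contDiffOn_const

theorem kahler_basic (hlgb : LgbStmt) : X1.BasicOn X1.U X1.kahler ∧ X1.Smooth X1.kahler :=
  hlgb 6 3 3 X1 X1.U isOpen_U1 (fun w hw _ hc => (act1_mem_U hc w).mpr hw) psi
    (fun c => ∑ j, Real.log (‖c j‖ ^ 2)) contDiffOn_psi psi_act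

theorem kahler_rot (hrdc : RdcStmt) (z : E6) (hz : z ∈ X1.U) (u : ℂ) (hu : ‖u‖ = 1) :
    (X1.kahler z).compContinuousLinearMap (mulC 6 u) = X1.kahler z := by
  have h1 : ContDiffAt ℝ 2 (fun w => cst 6 (psi w)) z :=
    (contDiffOn_cst_psi.contDiffAt (isOpen_U1.mem_nhds hz)).of_le
      (WithTop.coe_le_coe.mpr le_top : ((2 : ℕ∞) : WithTop ℕ∞) ≤ ((⊤ : ℕ∞) : WithTop ℕ∞))
  have h2 := hrdc 6 0 (fun w => cst 6 (psi w)) z h1 u hu
  have h3 : (fun w => (cst 6 (psi w)).compContinuousLinearMap (mulC 6 u)) =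
      fun w => cst 6 (psi w) := by
    funext w
    ext v
    rfl
  rw [h3] at h2
  exact h2.symm

theorem ddc_add_const {V : Set E6} (hV : IsOpen V) {ψ ψ' : E6 → ℝ} (c : ℝ)
    (hψ : ContDiffOn ℝ ((⊤ : ℕ∞) : WithTop ℕ∞) ψ V)
    (h : ∀ w ∈ V, ψ' w = ψ w + c) {z : E6} (hz : z ∈ V) :
    ddc (fun w => cst 6 (ψ' w)) z = ddc (fun w => cst 6 (ψ w)) z := by
  have h1 : om ψ' =ᶠ[𝓝 z] om ψ := by
    filter_upwards [hV.mem_nhds hz] with w hw
    unfold om
    have h2 : ψ' =ᶠ[𝓝 w] fun x => ψ x + c := by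
      filter_upwards [hV.mem_nhds hw] with x hx
      exact h x hx
    rw [h2.fderiv_eq, fderiv_add_const]
  have h3 := differentiableAt_om hV hψ hz
  have h4 : DifferentiableAt ℝ (om ψ') z := h3.congr_of_eventuallyEq h1
  ext v
  rw [ddc_cst_apply _ z h4, ddc_cst_apply _ z h3, h1.fderiv_eq]

theorem kahler_gs (hqua : QuaStmt) (g z : E6) (hg : g ∈ X1.U) (hz : z ∈ X1.U) :
    gs g X1.kahler z = X1.kahler z := by
  rw [H75.gs_eq, kahler_eq]
  have hgz : qmL g z ∈ X1.U := by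
    rw [qmL_apply]
    exact (hqua.2.1 g z).mpr ⟨hg, hz⟩
  rw [lp_ddc isOpen_U1 contDiffOn_psi (qmL g) hgz]
  refine ddc_add_const isOpen_U1 (psi g) contDiffOn_psi (fun w hw => ?_) hz
  rw [qmL_apply]
  exact psi_qm hqua g w hg hw

theorem kpow_succ (q : ℕ) (z : E6) : X1.kpow (q + 1) z = wedge (X1.kpow q z) (X1.kahler z) := rfl

theorem rot_iff {k : ℕ} (β : E6 → Alt 6 k) (h : ∀ z ∈ X1.U, ∀ u : ℂ, ‖u‖ = 1 →
    (β z).compContinuousLinearMap (mulC 6 u) = β z) : RotInv β := by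
  intro z hz u hu v
  have := congrArg (fun a : Alt 6 k => a v) (h z hz u hu)
  exact this

theorem kpow_rot (hrdc : RdcStmt) (hwdg : WdgStmt) (q : ℕ) (z : E6) (hz : z ∈ X1.U) (u : ℂ)
    (hu : ‖u‖ = 1) : (X1.kpow q z).compContinuousLinearMap (mulC 6 u) = X1.kpow q z := by
  induction q with
  | zero =>
    ext v
    rfl
  | succ q ih =>
    rw [kpow_succ]
    have h := (hwdg 6 (2 * q) 2).2.2.2.1 6 (mulC 6 u) (X1.kpow q z) (X1.kahler z)
    rw [ih, kahler_rot hrdc z hz u hu] at h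
    exact h

theorem kpow_basic (hwdg : WdgStmt) (hlgb : LgbStmt) (q : ℕ) : X1.BasicOn X1.U (X1.kpow q) := by
  induction q with
  | zero => exact ⟨fun z _ c _ v => rfl, fun z _ v i _ => i.elim0⟩
  | succ q ih =>
    exact (hwdg 6 (2 * q) 2).2.2.2.2.2.2 3 3 X1 X1.U (X1.kpow q) X1.kahler ih
      (kahler_basic hlgb).1

theorem smooth_wedge (hwdg : WdgStmt) {k l : ℕ} (a : E6 → Alt 6 k) (b : E6 → Alt 6 l)
    (ha : X1.Smooth a) (hb : X1.Smooth b) : X1.Smooth (fun z => wedge (a z) (b z)) := by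
  have h : ContDiff ℝ ((⊤ : ℕ∞) : WithTop ℕ∞) (fun p : Alt 6 k × Alt 6 l => wedge p.1 p.2) :=
    (hwdg 6 k l).2.2.2.2.1 _
  have h2 : ContDiffOn ℝ ((⊤ : ℕ∞) : WithTop ℕ∞) (fun z => (a z, b z)) X1.U :=
    ContDiffOn.prodMk ha hb
  have h3 : ContDiffOn ℝ ((⊤ : ℕ∞) : WithTop ℕ∞)
      ((fun p : Alt 6 k × Alt 6 l => wedge p.1 p.2) ∘ fun z => (a z, b z)) X1.U := by
    exact ContDiff.comp_contDiffOn h h2
  exact h3

theorem kpow_smooth (hwdg : WdgStmt) (hlgb : LgbStmt) (q : ℕ) : X1.Smooth (X1.kpow q) := by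
  induction q with
  | zero => exact contDiffOn_const
  | succ q ih => exact smooth_wedge hwdg (X1.kpow q) X1.kahler ih (kahler_basic hlgb).2

theorem kpow_gs (hqua : QuaStmt) (hwdg : WdgStmt) (q : ℕ) (g z : E6) (hg : g ∈ X1.U)
    (hz : z ∈ X1.U) : gs g (X1.kpow q) z = X1.kpow q z := by
  induction q with
  | zero =>
    ext v
    rfl
  | succ q ih =>
    have h := (hwdg 6 (2 * q) 2).2.2.2.1 6 ((qmL g).restrictScalars ℝ) (X1.kpow q (qm g z))
      (X1.kahler (qm g z))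
    have h1 : (X1.kpow q (qm g z)).compContinuousLinearMap ((qmL g).restrictScalars ℝ) =
      X1.kpow q z := ih
    have h2 : (X1.kahler (qm g z)).compContinuousLinearMap ((qmL g).restrictScalars ℝ) =
      X1.kahler z := kahler_gs hqua g z hg hz
    rw [h1, h2] at h
    exact h

/-- KPW -/
theorem kpw (hqua : QuaStmt) (hrdc : RdcStmt) (hwdg : WdgStmt) (hlgb : LgbStmt) : KpwStmt :=
  fun q => ⟨kpow_basic hwdg hlgb q, kpow_smooth hwdg hlgb q,
    rot_iff _ fun z hz u hu => kpow_rot hrdc hwdg q z hz u hu,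
    fun g hg z hz => kpow_gs hqua hwdg q g z hg hz⟩

end Pool.Agent.SIQ.H69
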