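import Pool.Agent.Helper15_SIQ.Stmts
import Pool.Agent.Helper47_SIQ.Ndg

/-!
# MP_021b97_an, Q1, module PPO: positivity of forms which represent positive currents
-/

set_option autoImplicit false

open MeasureTheory Filter Topology

namespace Pool.Agent.SIQ.H69

open Pool.Agent.SIU

theorem wpos_comp {N M p : ℕ} (L : (Fin N → ℂ) →L[ℝ] (Fin M → ℂ))
    (hL : ∀ (u : ℂ) (v : Fin N → ℂ), L (u • v) = u • L v) {a : Alt M (2 * p)} (h : WPos p a) :
    WPos p (a.compContinuousLinearMap L) := by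
  intro v
  have h1 := h (fun n => L (v n))
  have h2 : (cvec (fun n => L (v n)) (2 * p)) = fun i => L (cvec v (2 * p) i) := by
    funext i
    unfold cvec
    split_ifs with hi
    · rfl
    · exact (hL Complex.I _).symm
  rw [h2] at h1
  exact h1

theorem spos_comp {N M q : ℕ} (L : (Fin N → ℂ) →L[ℝ] (Fin M → ℂ))
    (hL : ∀ (u : ℂ) (v : Fin N → ℂ), L (u • v) = u • L v) {a : Alt M (2 * q)} (h : SPos q a) :
    SPos q (a.compContinuousLinearMap L) := by
  obtain ⟨m, c, T, hc, hT⟩ := h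
  let Lc : (Fin N → ℂ) →ₗ[ℂ] (Fin M → ℂ) :=
    { toFun := fun v => L v
      map_add' := fun v w => L.map_add v w
      map_smul' := fun u v => hL u v }
  refine ⟨m, c, fun l n => (T l n).comp Lc, hc, fun v => ?_⟩
  have h1 : a.compContinuousLinearMap L v = a (fun i => L (v i)) := rfl
  rw [h1, hT]
  rfl

theorem spos_smul {N q : ℕ} {a : Alt N (2 * q)} (h : SPos q a) {t : ℝ} (ht : 0 ≤ t) :
    SPos q (t • a) := by
  obtain ⟨m, c, T, hc, hT⟩ := h
  refine ⟨m, fun l => t * c l, T, fun l => mul_nonneg ht (hc l), fun v => ?_⟩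
  show t * a v = _
  rw [hT, Finset.mul_sum]
  exact Finset.sum_congr rfl fun l _ => (mul_assoc _ _ _).symm

theorem spos_zero {N q : ℕ} : SPos q (0 : Alt N (2 * q)) := by
  refine ⟨0, fun l => l.elim0, fun l => l.elim0, fun l => l.elim0, fun v => ?_⟩
  rw [Finset.univ_eq_empty, Finset.sum_empty]
  rfl

theorem chart_pos (hcht : ChtStmt) (hwdg : WdgStmt) {p q : ℕ} (K : X1.Form (2 * p))
    (h : ∀ β : X1.Form (2 * q), (∀ z ∈ X1.U, SPos q (β.1 z)) → 0 ≤ X1.pair K.1 β.1)
    (x0 : C3) (φ : Alt 3 (2 * q)) (hφ : SPos q φ) :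
    0 ≤ wedge (Toric.pull X1.σ K.1 x0) φ (stdb 3 (2 * p + 2 * q)) := by
  set g : C3 → ℝ := fun x => wedge (Toric.pull X1.σ K.1 x) φ (stdb 3 (2 * p + 2 * q)) with hg
  have hgc : Continuous g := by
    have h2 := H47.wedge_cont hwdg _ (H47.pull_cont K.2.1) φ
    exact h2.eval_const (stdb 3 (2 * p + 2 * q))
  by_contra hneg
  have hneg' : g x0 < 0 := not_le.mp hneg
  obtain ⟨r, hr, hball⟩ : ∃ r > 0, ∀ x ∈ Metric.ball x0 r, g x < 0 := by
    have h3 : ∀ᶠ x in 𝓝 x0, g x < 0 := hgc.continuousAt.eventually (Iio_mem_nhds hneg')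
    exact Metric.eventually_nhds_iff_ball.mp h3
  let χ : ContDiffBump x0 := ⟨r / 2, r, by positivity, by linarith⟩
  have hχ0 : ∀ x, x ∉ Metric.ball x0 r → χ x = 0 := by
    intro x hx
    by_contra hne
    have h3 : x ∈ Function.support χ := hne
    rw [χ.support_eq] at h3
    exact hx h3
  have hχd : ContDiff ℝ ((⊤ : ℕ∞) : WithTop ℕ∞) (fun x => χ x) := χ.contDiff
  have hχs : HasCompactSupport (fun x => χ x) := χ.hasCompactSupport
  -- the test form
  set γ : C3 → Alt 3 (2 * q) := fun x => χ x • φ with hγ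
  have hγs : HasCompactSupport γ := hχs.smul_right
  have hγd : Continuous γ := hχd.continuous.smul continuous_const
  obtain ⟨c1, c2, c3, c4, -, -, -, c8⟩ := hcht (2 * q) γ hγs hγd
  let β : X1.Form (2 * q) := ⟨chf γ, c1, c2, c3⟩
  have hβ : ∀ z ∈ X1.U, SPos q (β.1 z) := by
    intro z _
    show SPos q (chf γ z)
    unfold chf
    split_ifs with hh
    · exact spos_comp _ (c8 z hh) (spos_smul hφ χ.nonneg)
    · exact spos_zero
  have h1 := h β hβ
  have h2 : X1.pair K.1 β.1 = ∫ x, χ x * g x := by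
    unfold Toric.pair
    congr 1
    funext x
    show wedge (Toric.pull X1.σ K.1 x) (Toric.pull X1.σ (chf γ) x) (stdb 3 (2 * p + 2 * q)) = _
    rw [c4 x]
    show wedge (Toric.pull X1.σ K.1 x) (χ x • φ) (stdb 3 (2 * p + 2 * q)) = _
    rw [((hwdg 3 (2 * p) (2 * q)).2.2.1 (χ x) _ φ).2]
    rfl
  have h3 : 0 < ∫ x, -(χ x * g x) := by
    refine Continuous.integral_pos_of_hasCompactSupport_nonneg_nonzero
      (hχd.continuous.mul hgc).neg ?_ ?_ (x := x0) ?_
    · exact (hχs.mul_right (f' := g)).neg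
    · intro x
      show 0 ≤ -(χ x * g x)
      by_cases hx : x ∈ Metric.ball x0 r
      · have := mul_nonneg χ.nonneg (neg_nonneg.mpr (hball x hx).le) (a := χ x)
        linarith
      · rw [hχ0 x hx]
        simp
    · have h4 : χ x0 = 1 := χ.one_of_mem_closedBall (Metric.mem_closedBall_self (by positivity))
      show -(χ x0 * g x0) ≠ 0
      rw [h4, one_mul]
      exact neg_ne_zero.mpr hneg'.ne
  rw [integral_neg] at h3
  rw [h2] at h1
  linarith

/-- weak positivity on `U` from weak positivity in the chart -/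
theorem wpos_all (hcht : ChtStmt) {p : ℕ} (a : E6 → Alt 6 (2 * p))
    (hac : ContinuousOn a X1.U) (hab : X1.BasicOn X1.U a)
    (h : ∀ x : C3, WPos p (Toric.pull X1.σ a x)) (z : E6) (hz : z ∈ X1.U) : WPos p (a z) := by
  -- in the chart
  obtain ⟨-, -, -, -, -, -, c7, c8⟩ := hcht 0 (fun _ => 0)
    (by
      have : HasCompactSupport (0 : C3 → Alt 3 0) := HasCompactSupport.zero
      exact this) continuous_const
  have key : ∀ z : E6, (∀ i, z (hi i) ≠ 0) → WPos p (a z) := by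
    intro z hh
    rw [c7 (2 * p) a hab z hh]
    exact wpos_comp _ (c8 z hh) (h _)
  intro v
  -- density
  let w : E6 := ![0, 1, 0, 1, 0, 1]
  have hw : ∀ i, w (hi i) = 1 := by
    intro i
    fin_cases i <;> rfl
  have hcont : Continuous fun ε : ℝ => z + (ε : ℂ) • w := by fun_prop
  have hz0 : z + ((0 : ℝ) : ℂ) • w = z := by simp
  have hac' : ContinuousAt a z := hac.continuousAt (isOpen_U1.mem_nhds hz)
  have ht : Tendsto (fun ε : ℝ => a (z + (ε : ℂ) • w)) (𝓝[>] 0) (𝓝 (a z)) := by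
    have h1 : Tendsto (fun ε : ℝ => z + (ε : ℂ) • w) (𝓝[>] 0) (𝓝 z) := by
      have h2 := (hcont.tendsto 0)
      rw [hz0] at h2
      exact h2.mono_left nhdsWithin_le_nhds
    exact hac'.tendsto.comp h1
  have hev : ∀ᶠ ε : ℝ in 𝓝[>] 0, 0 ≤ a (z + (ε : ℂ) • w) (cvec v (2 * p)) := by
    have h2 : ∀ᶠ ε : ℝ in 𝓝[>] 0, ∀ i, (z + (ε : ℂ) • w) (hi i) ≠ 0 := by
      rw [eventually_all]
      intro i
      by_cases hi0 : z (hi i) = 0
      · filter_upwards [self_mem_nhdsWithin] with ε hε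
        show z (hi i) + (ε : ℂ) * w (hi i) ≠ 0
        rw [hi0, hw, zero_add, mul_one]
        exact_mod_cast (Set.mem_Ioi.mp hε).ne'
      · have h3 : Continuous fun ε : ℝ => z (hi i) + (ε : ℂ) * w (hi i) := by fun_prop
        have h4 : ∀ᶠ ε : ℝ in 𝓝 0, z (hi i) + (ε : ℂ) * w (hi i) ≠ 0 := by
          apply h3.continuousAt.eventually_ne
          simpa using hi0
        exact h4.filter_mono nhdsWithin_le_nhds
    filter_upwards [h2] with ε h4
    exact key _ h4 v
  have ht2 : Tendsto (fun ε : ℝ => a (z + (ε : ℂ) • w) (cvec v (2 * p))) (𝓝[>] 0)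
      (𝓝 (a z (cvec v (2 * p)))) := by
    have h5 : Continuous fun b : Alt 6 (2 * p) => b (cvec v (2 * p)) := by fun_prop
    exact (h5.tendsto _).comp ht
  exact ge_of_tendsto ht2 hev

/-- PPO -/
theorem ppo (hppa : PpaStmt) (heqv : EqvStmt) (hcht : ChtStmt) (hcpt : CptStmt)
    (hwdg : WdgStmt) : PpoStmt := by
  intro w p q hpq K hrot hpos z hz
  have h1 : ∀ x : C3, WPos p (Toric.pull X1.σ K.1 x) := fun x =>
    hppa p q hpq _ fun φ hφ => chart_pos hcht hwdg K hpos x φ hφ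
  have h2 : WPos p (K.1 z) := wpos_all hcht K.1 K.2.1 K.2.2.1 h1 z hz
  unfold FPos
  split_ifs with hw
  · exact ⟨h2, hrot z hz⟩
  · rw [(hcpt.1 (2 * p) K.1 K.2.2.1).2 z hz]
    refine spos_comp ((fl z).restrictScalars ℝ) (fun u v => (fl z).map_smul u v) ?_
    refine heqv p (by omega) _ ?_ ?_
    · exact wpos_comp ((fE z).restrictScalars ℝ) (fun u v => (fE z).map_smul u v) h2
    · intro u hu v
      have h3 := hrot z hz u hu (fun i => fE z (v i))
      show K.1 z (fun j => fE z (u • v j)) = K.1 z (fun j => fE z (v j))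
      rw [← h3]
      congr 1
      funext j
      exact (fE z).map_smul u (v j)

end Pool.Agent.SIQ.H69
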